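import Mathlib

set_option autoImplicit false

/-!
# Graphs of chromatic number aleph_1 with slowly growing bipartite deficiency

For every `ε > 0` there is a graph `G` with chromatic number exactly `ℵ₁` such that every
`n`-vertex subgraph of `G` can be made bipartite by deleting `O(n ^ (1 + ε))` edges.
-/

namespace Pool.Agent.Results.MP_5b422c_co.SlowBipartite

open Cardinal Filter

/-! ## The notions of the problem -/

/-- `β(F)`: the least number of edges whose deletion from `F` leaves a bipartite graph. -/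
noncomputable def bipDeficiency {V : Type*} (F : SimpleGraph V) : ℕ :=
  sInf {k : ℕ | ∃ H : SimpleGraph V, H ≤ F ∧ H.IsBipartite ∧ (F.edgeSet \ H.edgeSet).ncard = k}

/-- `h_G(n)`: the largest value of `β(G[S])` over the `n`-element vertex sets `S` of `G`. -/
noncomputable def hFun {V : Type*} (G : SimpleGraph V) (n : ℕ) : ℕ :=
  sSup {k : ℕ | ∃ S : Finset V, S.card = n ∧ bipDeficiency (G.induce (S : Set V)) = k}

/-- The chromatic number of a (possibly infinite) graph, as a cardinal: the least cardinality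
of a type of colours admitting a proper colouring. -/
noncomputable def chromaticCardinal {V : Type} (G : SimpleGraph V) : Cardinal.{0} :=
  sInf {κ : Cardinal.{0} | ∃ C : Type, #C = κ ∧ Nonempty (G.Coloring C)}

/-- Sanity check: the set whose supremum defines `h_G(n)` is bounded, so the supremum is a maximum
whenever there is an `n`-element vertex set. -/
theorem hFun_bddAbove {V : Type*} (G : SimpleGraph V) (n : ℕ) :
    BddAbove {k : ℕ | ∃ S : Finset V, S.card = n ∧
      bipDeficiency (G.induce (S : Set V)) = k} := by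
  classical
  refine ⟨n * n, ?_⟩
  rintro k ⟨S, hS, rfl⟩
  have h1 : bipDeficiency (G.induce (S : Set V)) ≤
      ((G.induce (S : Set V)).edgeSet \ (⊥ : SimpleGraph (S : Set V)).edgeSet).ncard := by
    refine Nat.sInf_le ⟨⊥, bot_le, ?_, rfl⟩
    exact ⟨SimpleGraph.Coloring.mk (fun _ => 0) (fun {_ _} h => h.elim)⟩
  refine h1.trans ?_
  let f : ((S : Set V) : Type _) × ((S : Set V) : Type _) → Sym2 (S : Set V) :=
    fun p => s(p.1, p.2)
  have h2 : ((G.induce (S : Set V)).edgeSet \ (⊥ : SimpleGraph (S : Set V)).edgeSet) ⊆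
      Set.range f := by
    rintro e -
    induction e with
    | _ a b => exact ⟨(a, b), rfl⟩
  calc _ ≤ (Set.range f).ncard := Set.ncard_le_ncard h2 (Set.finite_range f)
    _ = (f '' Set.univ).ncard := by rw [Set.image_univ]
    _ ≤ (Set.univ : Set (((S : Set V) : Type _) × ((S : Set V) : Type _))).ncard :=
        Set.ncard_image_le (Set.toFinite _)
    _ = n * n := by rw [Set.ncard_univ]; simp [hS]

/-! ## Walks with levels -/

/-- `Rch E k v d x`: starting from `v` at level `d`, there is a walk along edges of `E`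
(forward edges raise the level by one, backward edges lower it by one) inside the levels
`0, …, k`, ending at `x` at level `k`. -/
inductive Rch {V : Type*} (E : V → V → Prop) (k : ℕ) : V → ℕ → V → Prop
  | base (v : V) : Rch E k v k v
  | fwd {v w x : V} {d : ℕ} : E v w → d < k → Rch E k w (d + 1) x → Rch E k v d x
  | bwd {v w x : V} {d : ℕ} : E w v → d < k → Rch E k w d x → Rch E k v (d + 1) x

/-- Signed walks from `v` with final displacement `δ`. -/
inductive SW {V : Type*} (E : V → V → Prop) : V → ℤ → Prop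
  | nil (v : V) : SW E v 0
  | fwd {v w : V} {δ : ℤ} : E v w → SW E w δ → SW E v (δ + 1)
  | bwd {v w : V} {δ : ℤ} : E w v → SW E w δ → SW E v (δ - 1)

section Walks

variable {V : Type*}

theorem Rch.mono {E E' : V → V → Prop} (h : ∀ u w, E u w → E' u w) {k : ℕ} {v x : V} {d : ℕ}
    (H : Rch E k v d x) : Rch E' k v d x := by
  induction H with
  | base v => exact Rch.base v
  | fwd h1 h2 _ ih => exact Rch.fwd (h _ _ h1) h2 ih
  | bwd h1 h2 _ ih => exact Rch.bwd (h _ _ h1) h2 ih

theorem Rch.lift {E : V → V → Prop} {k : ℕ} {v x : V} {d : ℕ}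
    (H : Rch E k v d x) : Rch E (k + 1) v (d + 1) x := by
  induction H with
  | base v => exact Rch.base v
  | fwd h1 h2 _ ih => exact Rch.fwd h1 (by omega) ih
  | bwd h1 h2 _ ih => exact Rch.bwd h1 (by omega) ih

/-- All vertices met are in `S`. -/
theorem Rch.mem {E : V → V → Prop} {S : Set V} (hE : ∀ u w, E u w → u ∈ S ∧ w ∈ S)
    {k : ℕ} {v x : V} {d : ℕ} (H : Rch E k v d x) (hv : v ∈ S) : x ∈ S := by
  induction H with
  | base v => exact hv
  | fwd h1 h2 _ ih => exact ih (hE _ _ h1).2
  | bwd h1 h2 _ ih => exact ih (hE _ _ h1).1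

/-- Decomposition of a walk at its last visit to level `0`. -/
theorem Rch.decomp {E E' : V → V → Prop} (h : ∀ u w, E' u w → E u w) {k : ℕ} {v x : V} {d : ℕ}
    (H : Rch E' (k + 1) v d x) :
    (∃ u w, E' u w ∧ Rch E' k w 0 x ∧ ∀ y, Rch E (k + 1) u 0 y → Rch E (k + 1) v d y) ∨
      (∃ d', d = d' + 1 ∧ Rch E' k v d' x) := by
  induction H with
  | base v => exact Or.inr ⟨k, rfl, Rch.base v⟩
  | @fwd v w x d h1 h2 _ ih =>
    rcases ih with ⟨u, w', hu, hw', hy⟩ | ⟨d', hd', hr⟩
    · exact Or.inl ⟨u, w', hu, hw', fun y hy' => Rch.fwd (h _ _ h1) h2 (hy y hy')⟩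
    · obtain rfl : d = d' := by omega
      rcases d with _ | e
      · exact Or.inl ⟨v, w, h1, hr, fun y hy => hy⟩
      · exact Or.inr ⟨e, rfl, Rch.fwd h1 (by omega) hr⟩
  | @bwd v w x d h1 h2 _ ih =>
    rcases ih with ⟨u, w', hu, hw', hy⟩ | ⟨d', hd', hr⟩
    · exact Or.inl ⟨u, w', hu, hw', fun y hy' => Rch.bwd (h _ _ h1) h2 (hy y hy')⟩
    · subst hd'
      exact Or.inr ⟨d' + 1, rfl, Rch.bwd h1 (by omega) hr⟩

theorem SW.key {E : V → V → Prop} {r : ℕ} {v : V} {δ : ℤ} (H : SW E v δ) :
    (∃ v' x, Rch E r v' 0 x) ∨ (∀ d : ℕ, d ≤ r → (r : ℤ) ≤ d + δ → ∃ x, Rch E r v d x) := by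
  induction H with
  | nil v =>
    right
    intro d hd hd'
    obtain rfl : d = r := by omega
    exact ⟨v, Rch.base v⟩
  | @fwd v w δ h1 _ ih =>
    rcases ih with ih | ih
    · exact Or.inl ih
    · right
      intro d hd hd'
      rcases Nat.lt_or_ge d r with hlt | hge
      · obtain ⟨x, hx⟩ := ih (d + 1) hlt (by push_cast; linarith)
        exact ⟨x, Rch.fwd h1 hlt hx⟩
      · obtain rfl : d = r := by omega
        exact ⟨v, Rch.base v⟩
  | @bwd v w δ h1 _ ih =>
    rcases ih with ih | ih
    · exact Or.inl ih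
    · by_cases hbig : (r : ℤ) ≤ δ
      · obtain ⟨x, hx⟩ := ih 0 (Nat.zero_le _) (by simpa using hbig)
        exact Or.inl ⟨w, x, hx⟩
      · right
        intro d hd hd'
        rcases d with _ | e
        · exfalso
          push_cast at hd'
          omega
        · obtain ⟨x, hx⟩ := ih e (by omega) (by push_cast at hd'; linarith)
          exact ⟨x, Rch.bwd h1 (by omega) hx⟩

/-- If no vertex can climb `r` levels, then the parity of the largest displacement is a proper
two-colouring. -/
theorem exists_parity {E : V → V → Prop} {r : ℕ} (hno : ∀ v x, ¬ Rch E r v 0 x) :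
    ∃ c : V → Bool, ∀ u w, E u w → c u ≠ c w := by
  classical
  have hbd : ∀ v, BddAbove {δ : ℤ | SW E v δ} := by
    intro v
    refine ⟨r, ?_⟩
    intro δ hδ
    by_contra hcon
    push Not at hcon
    rcases SW.key (r := r) hδ with ⟨v', x, hx⟩ | h
    · exact hno _ _ hx
    · obtain ⟨x, hx⟩ := h 0 (Nat.zero_le _) (by push_cast; linarith)
      exact hno _ _ hx
  have hne : ∀ v, {δ : ℤ | SW E v δ}.Nonempty := fun v => ⟨0, SW.nil v⟩
  let h : V → ℤ := fun v => sSup {δ : ℤ | SW E v δ}
  have hmem : ∀ v, SW E v (h v) := fun v => Int.csSup_mem (hne v) (hbd v)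
  have hle : ∀ v δ, SW E v δ → δ ≤ h v := fun v δ hδ => le_csSup (hbd v) hδ
  have hstep : ∀ u w, E u w → h u = h w + 1 := by
    intro u w huw
    have h1 : h w + 1 ≤ h u := hle _ _ (SW.fwd huw (hmem w))
    have h2 : h u - 1 ≤ h w := hle _ _ (SW.bwd huw (hmem u))
    omega
  refine ⟨fun v => decide (Even (h v)), ?_⟩
  intro u w huw
  have := hstep u w huw
  simp only [ne_eq, decide_eq_decide, this]
  rw [Int.even_add_one]
  tauto

end Walks

/-! ## Cleaning -/

section Clean

variable {V : Type*}

open Classical in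
/-- `w` can climb `k` levels to at least `(M + 1) ^ k` different end vertices. -/
def rich (E : V → V → Prop) (S : Finset V) (M k : ℕ) (w : V) : Prop :=
  (M + 1) ^ k ≤ (S.filter (fun x => Rch E k w 0 x)).card

open Classical in
/-- The cleaned relation after `k` rounds. -/
def clean (E : V → V → Prop) (S : Finset V) (M : ℕ) : ℕ → V → V → Prop
  | 0 => E
  | k + 1 => fun u w => clean E S M k u w ∧
      ¬ (rich E S M k w ∧
        (S.filter (fun w' => clean E S M k u w' ∧ rich E S M k w')).card ≤ M)

theorem clean_le (E : V → V → Prop) (S : Finset V) (M k : ℕ) (u w : V)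
    (h : clean E S M k u w) : E u w := by
  induction k with
  | zero => exact h
  | succ k ih => exact ih h.1

theorem rich_of_rch (E : V → V → Prop) (S : Finset V) (M r : ℕ)
    (hE : ∀ u w, E u w → u ∈ S ∧ w ∈ S)
    (hdisj : ∀ k, k < r → ∀ u w w' x, E u w → E u w' → Rch E k w 0 x → Rch E k w' 0 x → w = w') :
    ∀ k, k ≤ r → ∀ v x, v ∈ S → Rch (clean E S M k) k v 0 x → rich E S M k v := by
  classical
  intro k
  induction k with
  | zero =>
    intro _ v x hv _
    unfold rich
    rw [pow_zero]
    exact Finset.card_pos.mpr ⟨v, by simpa using ⟨hv, Rch.base v⟩⟩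
  | succ k ih =>
    intro hk v x hv hx
    rcases Rch.decomp (E := E) (fun u w h => clean_le E S M (k + 1) u w h) hx with
      ⟨u, w, huw, hwx, hy⟩ | ⟨d', hd', _⟩
    swap
    · omega
    have hEuw : E u w := clean_le E S M (k + 1) u w huw
    have hwx' : Rch (clean E S M k) k w 0 x := Rch.mono (fun a b h => h.1) hwx
    have hw : rich E S M k w := ih (by omega) w x (hE _ _ hEuw).2 hwx'
    have hcard : M + 1 ≤ (S.filter (fun w' => clean E S M k u w' ∧ rich E S M k w')).card := by
      by_contra hcon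
      exact huw.2 ⟨hw, by omega⟩
    set W := S.filter (fun w' => clean E S M k u w' ∧ rich E S M k w') with hW
    have hWE : ∀ w' ∈ W, E u w' := fun w' hw' =>
      clean_le E S M k u w' (Finset.mem_filter.mp hw').2.1
    have hsub : W.biUnion (fun w' => S.filter (fun x => Rch E k w' 0 x)) ⊆
        S.filter (fun x => Rch E (k + 1) v 0 x) := by
      intro y hyy
      rw [Finset.mem_biUnion] at hyy
      obtain ⟨w', hw', hy'⟩ := hyy
      rw [Finset.mem_filter] at hy' ⊢
      refine ⟨hy'.1, hy y ?_⟩
      exact Rch.fwd (hWE w' hw') (by omega) (Rch.lift hy'.2)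
    have hdis : (W : Set V).PairwiseDisjoint (fun w' => S.filter (fun x => Rch E k w' 0 x)) := by
      intro a ha b hb hab
      rw [Function.onFun, Finset.disjoint_left]
      intro y hya hyb
      rw [Finset.mem_filter] at hya hyb
      exact hab (hdisj k (by omega) u a b y (hWE a ha) (hWE b hb) hya.2 hyb.2)
    unfold rich
    calc (M + 1) ^ (k + 1) = (M + 1) * (M + 1) ^ k := by ring
      _ ≤ W.card * (M + 1) ^ k := Nat.mul_le_mul_right _ hcard
      _ = ∑ _w' ∈ W, (M + 1) ^ k := by simp
      _ ≤ ∑ w' ∈ W, (S.filter (fun x => Rch E k w' 0 x)).card :=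
          Finset.sum_le_sum (fun w' hw' => (Finset.mem_filter.mp hw').2.2)
      _ = (W.biUnion (fun w' => S.filter (fun x => Rch E k w' 0 x))).card :=
          (Finset.card_biUnion hdis).symm
      _ ≤ _ := Finset.card_le_card hsub

open Classical in
theorem card_deleted (E : V → V → Prop) (S : Finset V) (M : ℕ) (k : ℕ) :
    ((S ×ˢ S).filter (fun p => E p.1 p.2 ∧ ¬ clean E S M k p.1 p.2)).card ≤ k * S.card * M := by
  induction k with
  | zero => simp [clean]
  | succ k ih =>
    have hsub : (S ×ˢ S).filter (fun p => E p.1 p.2 ∧ ¬ clean E S M (k + 1) p.1 p.2) ⊆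
        (S ×ˢ S).filter (fun p => E p.1 p.2 ∧ ¬ clean E S M k p.1 p.2) ∪
        S.biUnion (fun u => (if (S.filter (fun w' => clean E S M k u w' ∧
          rich E S M k w')).card ≤ M then (S.filter (fun w' => clean E S M k u w' ∧
          rich E S M k w')) else ∅).image (fun w => (u, w))) := by
      rintro ⟨u, w⟩ hp
      rw [Finset.mem_filter, Finset.mem_product] at hp
      obtain ⟨⟨hu, hw⟩, hEuw, hn⟩ := hp
      simp only at hu hw hEuw hn
      rw [Finset.mem_union]
      by_cases hc : clean E S M k u w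
      · right
        have hn' : rich E S M k w ∧
          (S.filter (fun w' => clean E S M k u w' ∧ rich E S M k w')).card ≤ M := by
          by_contra hcon
          exact hn ⟨hc, hcon⟩
        rw [Finset.mem_biUnion]
        refine ⟨u, hu, ?_⟩
        rw [if_pos hn'.2, Finset.mem_image]
        exact ⟨w, Finset.mem_filter.mpr ⟨hw, hc, hn'.1⟩, rfl⟩
      · left
        rw [Finset.mem_filter, Finset.mem_product]
        exact ⟨⟨hu, hw⟩, hEuw, hc⟩
    calc _ ≤ _ := Finset.card_le_card hsub
      _ ≤ _ := Finset.card_union_le _ _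
      _ ≤ k * S.card * M + S.card * M := by
          refine Nat.add_le_add ih ?_
          refine Finset.card_biUnion_le_card_mul _ _ _ ?_
          intro u _
          refine Finset.card_image_le.trans ?_
          split_ifs with h
          · exact h
          · simp
      _ = (k + 1) * S.card * M := by ring

/-- The deficiency bound for a finite set `S` of vertices. -/
theorem deficiency_le (G : SimpleGraph V) (dir : V → V → Prop)
    (hdir : ∀ u w, G.Adj u w → dir u w ∨ dir w u) (r M : ℕ) (S : Finset V)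
    (hdisj : ∀ E : V → V → Prop, (∀ u w, E u w → dir u w) → ∀ k, k < r → ∀ u w w' x,
      E u w → E u w' → Rch E k w 0 x → Rch E k w' 0 x → w = w')
    (hr : 0 < r) (hM : S.card < (M + 1) ^ r) :
    bipDeficiency (G.induce (S : Set V)) ≤ r * S.card * M := by
  classical
  let E : V → V → Prop := fun u w => u ∈ S ∧ w ∈ S ∧ G.Adj u w ∧ dir u w
  have hE : ∀ u w, E u w → u ∈ S ∧ w ∈ S := fun u w h => ⟨h.1, h.2.1⟩
  have hEdir : ∀ u w, E u w → dir u w := fun u w h => h.2.2.2
  have hEadj : ∀ u w, E u w → G.Adj u w := fun u w h => h.2.2.1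
  have hrich := rich_of_rch E S M r hE (hdisj E hEdir)
  have hno0 : ∀ v x, v ∈ S → ¬ Rch (clean E S M r) r v 0 x := by
    intro v x hv hx
    have h1 := hrich r le_rfl v x hv hx
    have h2 : (S.filter (fun x => Rch E r v 0 x)).card ≤ S.card := Finset.card_filter_le _ _
    unfold rich at h1
    exact absurd (h1.trans h2) (by omega)
  -- the remaining graph
  let H : SimpleGraph (S : Set V) :=
    { Adj := fun a b => clean E S M r a.1 b.1 ∨ clean E S M r b.1 a.1
      symm := ⟨fun a b h => Or.symm h⟩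
      loopless := ⟨fun a h => by
        have : G.Adj a.1 a.1 := by
          rcases h with h | h
          · exact hEadj _ _ (clean_le E S M r _ _ h)
          · exact hEadj _ _ (clean_le E S M r _ _ h)
        exact G.loopless.irrefl _ this⟩ }
  have hHle : H ≤ G.induce (S : Set V) := by
    intro a b h
    rcases h with h | h
    · exact hEadj _ _ (clean_le E S M r _ _ h)
    · exact (hEadj _ _ (clean_le E S M r _ _ h)).symm
  have hbip : H.IsBipartite := by
    have hno : ∀ v x, ¬ Rch (clean E S M r) r v 0 x := by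
      intro v x hx
      by_cases hv : v ∈ S
      · exact hno0 v x hv hx
      · cases hx with
        | base => exact absurd rfl hr.ne'
        | fwd h1 _ _ => exact hv (hE _ _ (clean_le E S M r _ _ h1)).1
    obtain ⟨c, hc⟩ := exists_parity hno
    have col : H.Coloring Bool := SimpleGraph.Coloring.mk (fun a => c a.1) (by
      intro a b h
      rcases h with h | h
      · exact hc _ _ h
      · exact (hc _ _ h).symm)
    simpa using col.colorable
  have hdel := card_deleted E S M r
  have hncard : ((G.induce (S : Set V)).edgeSet \ H.edgeSet).ncard ≤ r * S.card * M := by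
    refine le_trans ?_ hdel
    set D := (S ×ˢ S).filter (fun p => E p.1 p.2 ∧ ¬ clean E S M r p.1 p.2) with hD
    -- every deleted edge comes from a deleted directed pair
    have hDS : ∀ p ∈ D, p.1 ∈ S ∧ p.2 ∈ S := fun p hp =>
      Finset.mem_product.mp (Finset.mem_filter.mp hp).1
    let f : D → Sym2 (S : Set V) := fun p =>
      s(⟨p.1.1, (hDS p.1 p.2).1⟩, ⟨p.1.2, (hDS p.1 p.2).2⟩)
    have hsub : (G.induce (S : Set V)).edgeSet \ H.edgeSet ⊆ Set.range f := by
      rintro e ⟨he1, he2⟩
      induction e with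
      | _ a b =>
        rw [SimpleGraph.mem_edgeSet] at he1 he2
        have hadj : G.Adj a.1 b.1 := he1
        have hn1 : ¬ clean E S M r a.1 b.1 := fun h => he2 (Or.inl h)
        have hn2 : ¬ clean E S M r b.1 a.1 := fun h => he2 (Or.inr h)
        rcases hdir _ _ hadj with hd | hd
        · refine ⟨⟨(a.1, b.1), ?_⟩, rfl⟩
          rw [hD, Finset.mem_filter, Finset.mem_product]
          exact ⟨⟨a.2, b.2⟩, ⟨a.2, b.2, hadj, hd⟩, hn1⟩
        · refine ⟨⟨(b.1, a.1), ?_⟩, Sym2.eq_swap⟩
          rw [hD, Finset.mem_filter, Finset.mem_product]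
          exact ⟨⟨b.2, a.2⟩, ⟨b.2, a.2, hadj.symm, hd⟩, hn2⟩
    calc _ ≤ (Set.range f).ncard := Set.ncard_le_ncard hsub (Set.finite_range f)
      _ = (f '' Set.univ).ncard := by rw [Set.image_univ]
      _ ≤ (Set.univ : Set D).ncard := Set.ncard_image_le (Set.toFinite _)
      _ = D.card := by rw [Set.ncard_univ]; simp
      _ ≤ _ := Finset.card_le_card (by intro p hp; simpa [hD] using hp)
  unfold bipDeficiency
  refine le_trans (Nat.sInf_le ⟨H, hHle, hbip, rfl⟩) hncard

end Clean

/-! ## Tuples: letters are kept inside the window -/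

section Tuples

variable {K : Type*} {s : ℕ}

/-- The shift relation on `(s + 1)`-tuples. -/
def shiftRel (u w : Fin (s + 1) → K) : Prop :=
  (fun i : Fin s => u i.succ) = fun i : Fin s => w i.castSucc

theorem letter_kept (E : (Fin (s + 1) → K) → (Fin (s + 1) → K) → Prop)
    (hE : ∀ u w, E u w → shiftRel u w) (k : ℕ) (hk : k ≤ s) {v x : Fin (s + 1) → K} {d : ℕ}
    (H : Rch E k v d x) :
    d ≤ k ∧ x ⟨s - k, by omega⟩ = v ⟨s - d, by omega⟩ := by
  induction H with
  | base v => exact ⟨le_rfl, rfl⟩
  | @fwd v w x d h1 h2 _ ih =>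
    refine ⟨h2.le, ih.2.trans ?_⟩
    have h3 := congrFun (hE _ _ h1) ⟨s - (d + 1), by omega⟩
    have e1 : (⟨s - (d + 1), by omega⟩ : Fin s).succ = ⟨s - d, by omega⟩ := by
      ext; simp; omega
    have e2 : (⟨s - (d + 1), by omega⟩ : Fin s).castSucc = ⟨s - (d + 1), by omega⟩ := rfl
    rw [e1, e2] at h3
    exact h3.symm
  | @bwd v w x d h1 h2 _ ih =>
    refine ⟨h2, ih.2.trans ?_⟩
    have h3 := congrFun (hE _ _ h1) ⟨s - (d + 1), by omega⟩
    have e1 : (⟨s - (d + 1), by omega⟩ : Fin s).succ = ⟨s - d, by omega⟩ := by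
      ext; simp; omega
    have e2 : (⟨s - (d + 1), by omega⟩ : Fin s).castSucc = ⟨s - (d + 1), by omega⟩ := rfl
    rw [e1, e2] at h3
    exact h3

theorem shift_disj (E : (Fin (s + 1) → K) → (Fin (s + 1) → K) → Prop)
    (hE : ∀ u w, E u w → shiftRel u w) (k : ℕ) (hk : k < s + 1) (u w w' x : Fin (s + 1) → K)
    (h1 : E u w) (h2 : E u w') (h3 : Rch E k w 0 x) (h4 : Rch E k w' 0 x) : w = w' := by
  have e1 := (letter_kept E hE k (by omega) h3).2
  have e2 := (letter_kept E hE k (by omega) h4).2
  have e3 : w ⟨s - 0, by omega⟩ = w' ⟨s - 0, by omega⟩ := e1.symm.trans e2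
  have e4 : (fun i : Fin s => w i.castSucc) = fun i : Fin s => w' i.castSucc :=
    (hE _ _ h1).symm.trans (hE _ _ h2)
  funext i
  refine Fin.lastCases ?_ (fun j => ?_) i
  · exact e3
  · exact congrFun e4 j

/-- The graph on `(s + 1)`-tuples: `u` and `w` are adjacent when one is a shift of the other and
their `g`-colours differ. -/
def tupleGraph {Ω : Type*} (g : (Fin (s + 1) → K) → Ω) : SimpleGraph (Fin (s + 1) → K) where
  Adj u w := g u ≠ g w ∧ (shiftRel u w ∨ shiftRel w u)
  symm := ⟨fun _ _ h => ⟨h.1.symm, h.2.symm⟩⟩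
  loopless := ⟨fun _ h => h.1 rfl⟩

theorem deficiency_tupleGraph {Ω : Type*} (g : (Fin (s + 1) → K) → Ω) (S : Finset (Fin (s + 1) → K))
    (M : ℕ) (hM : S.card < (M + 1) ^ (s + 1)) :
    bipDeficiency ((tupleGraph g).induce (S : Set (Fin (s + 1) → K))) ≤ (s + 1) * S.card * M :=
  deficiency_le (tupleGraph g) shiftRel (fun _ _ h => h.2) (s + 1) M S
    (fun E hE k hk u w w' x => shift_disj E hE k hk u w w' x) (Nat.succ_pos s) hM

end Tuples

/-! ## The chromatic number -/

section Chromatic

/-- Iterated power sets. -/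
def IterPow : ℕ → Type → Type
  | 0, C => C
  | k + 1, C => IterPow k (Set C)

/-- The shift graph on strictly increasing tuples has large chromatic number. -/
theorem shift_lemma {Λ : Type} [LinearOrder Λ] : ∀ (s : ℕ) (C : Type) (c : (Fin (s + 1) → Λ) → C),
    (∀ a : Fin (s + 2) → Λ, StrictMono a →
      c (fun i => a i.castSucc) ≠ c (fun i => a i.succ)) →
    ∃ f : Λ → IterPow s C, Function.Injective f := by
  intro s
  induction s with
  | zero =>
    intro C c hc
    have key : ∀ x y : Λ, x < y → c (fun _ => x) ≠ c (fun _ => y) := by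
      intro x y hxy
      have h := hc ![x, y] (by
        intro i j hij
        have h1 : i = 0 := by
          ext
          have := i.2; have := j.2; have : i.1 < j.1 := hij; simp; omega
        have h2 : j = 1 := by
          ext
          have := i.2; have := j.2; have : i.1 < j.1 := hij; simp; omega
        subst h1 h2
        simpa using hxy)
      have e1 : (fun i : Fin 1 => (![x, y] : Fin 2 → Λ) i.castSucc) = fun _ => x := by
        funext i
        have : i = 0 := Subsingleton.elim _ _
        subst this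
        rfl
      have e2 : (fun i : Fin 1 => (![x, y] : Fin 2 → Λ) i.succ) = fun _ => y := by
        funext i
        have : i = 0 := Subsingleton.elim _ _
        subst this
        rfl
      rw [e1, e2] at h
      exact h
    refine ⟨fun x => c (fun _ => x), ?_⟩
    intro x y hxy
    rcases lt_trichotomy x y with h | h | h
    · exact absurd hxy (key x y h)
    · exact h
    · exact absurd hxy.symm (key y x h)
  | succ s ih =>
    intro C c hc
    refine ih (Set C) (fun b => {y | ∃ a : Fin (s + 2) → Λ, StrictMono a ∧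
      (fun i : Fin (s + 1) => a i.succ) = b ∧ c a = y}) ?_
    intro a ha heq
    have hmem : c a ∈ {y | ∃ a' : Fin (s + 2) → Λ, StrictMono a' ∧
        (fun i : Fin (s + 1) => a' i.succ) = (fun i => a i.succ) ∧ c a' = y} :=
      ⟨a, ha, rfl, rfl⟩
    rw [← heq] at hmem
    obtain ⟨a', ha', htail, hca⟩ := hmem
    have hinit : (fun i : Fin (s + 2) => (Fin.cons (a' 0) a : Fin (s + 3) → Λ) i.castSucc) = a' := by
      funext i
      refine Fin.cases ?_ (fun j => ?_) i
      · rfl
      · have := congrFun htail j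
        rw [this]
        rw [← Fin.succ_castSucc, Fin.cons_succ]
    have htl : (fun i : Fin (s + 2) => (Fin.cons (a' 0) a : Fin (s + 3) → Λ) i.succ) = a := by
      funext i
      simp
    have hmono : StrictMono (Fin.cons (a' 0) a : Fin (s + 3) → Λ) := by
      rw [Fin.strictMono_iff_lt_succ]
      intro i
      have h1 := congrFun hinit i
      have h2 := congrFun htl i
      rw [h1, h2]
      refine Fin.cases ?_ (fun j => ?_) i
      · have h3 : a' 0 < a' 1 := ha' (by simp)
        have h4 := congrFun htail 0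
        have h5 : a' 1 = a 0 := h4
        rwa [h5] at h3
      · have h4 := congrFun htail j
        rw [h4]
        exact ha (by
          rw [Fin.lt_def]
          simp)
    have := hc _ hmono
    rw [hinit, htl] at this
    exact this hca

/-- A colour type of cardinality `ℵ₁`. -/
abbrev Om : Type := (Cardinal.aleph 1 : Cardinal.{0}).out

theorem mk_Om : #Om = Cardinal.aleph 1 := Cardinal.mk_out _

theorem exists_notMem_of_countable (s : Set Om) (hs : s.Countable) : ∃ ω : Om, ω ∉ s := by
  by_contra hcon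
  push Not at hcon
  have h1 : s = Set.univ := Set.eq_univ_of_forall hcon
  rw [h1, Set.countable_univ_iff, ← Cardinal.mk_le_aleph0_iff, mk_Om] at hs
  exact absurd hs (not_le.mpr Cardinal.aleph0_lt_aleph_one)

/-- Letters: an index together with a function assigning colours to tuples of indices. -/
abbrev Letter (Λ : Type) (t : ℕ) : Type := Λ × ((Fin (t + 1) → Λ) → Om)

/-- The colour of a tuple of letters: the last letter evaluated at the previous indices. -/
def gen {Λ : Type} {t : ℕ} (u : Fin (t + 1 + 1) → Letter Λ t) : Om :=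
  (u (Fin.last (t + 1))).2 (fun i => (u i.castSucc).1)

/-- The graph of generic tuples is not countably chromatic, when the index set is large. -/
theorem not_countable_coloring_aux (t : ℕ) {Λ : Type} [LinearOrder Λ] [hwf : WellFoundedLT Λ]
    (hΛ : ∀ f : Λ → IterPow t (Set ℕ), ¬ Function.Injective f) :
    IsEmpty ((tupleGraph (gen (Λ := Λ) (t := t))).Coloring ℕ) := by
  classical
  constructor
  intro h
  have : Nonempty Om := by
    rw [← Cardinal.mk_ne_zero_iff, mk_Om]
    exact (Cardinal.aleph_pos 1).ne'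
  -- in-colours
  let N : (Fin (t + 1) → Letter Λ t) → Set ℕ := fun m =>
    {n | ∃ u : Fin (t + 1 + 1) → Letter Λ t, (fun i : Fin (t + 1) => u i.succ) = m ∧ h u = n}
  let Γ : (Fin (t + 1) → Letter Λ t) → Set Om := fun m =>
    {ω | ∃ n ∈ N m, ∀ u : Fin (t + 1 + 1) → Letter Λ t, (fun i : Fin (t + 1) => u i.succ) = m →
      h u = n → gen u = ω}
  have hΓ : ∀ m, (Γ m).Countable := by
    intro m
    have hsub : Γ m ⊆ ⋃ n ∈ N m, {ω | ∀ u : Fin (t + 1 + 1) → Letter Λ t,
        (fun i : Fin (t + 1) => u i.succ) = m → h u = n → gen u = ω} := by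
      rintro ω ⟨n, hn, hω⟩
      exact Set.mem_biUnion hn hω
    refine Set.Countable.mono hsub ?_
    refine Set.Countable.biUnion (Set.to_countable _) ?_
    rintro n ⟨u, hu, hun⟩
    refine Set.Subsingleton.countable ?_
    intro ω1 h1 ω2 h2
    exact (h1 u hu hun).symm.trans (h2 u hu hun)
  choose pick hpick using fun m => exists_notMem_of_countable (Γ m) (hΓ m)
  -- the generic path
  let F : Λ → ((Fin (t + 1) → Λ) → Om) := hwf.wf.fix (fun α ih x =>
    if hx : ∀ i, x i < α then pick (fun i => (x i, ih (x i) (hx i))) else Classical.arbitrary Om)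
  have hF : ∀ α x, (∀ i, x i < α) → F α x = pick (fun i => (x i, F (x i))) := by
    intro α x hx
    have : F α = _ := hwf.wf.fix_eq _ α
    rw [this]
    simp only [hx, implies_true, dite_true]
    rfl
  have hpath : ∀ a : Fin (t + 2) → Λ, StrictMono a →
      N (fun i : Fin (t + 1) => (a i.castSucc, F (a i.castSucc))) ≠
        N (fun i : Fin (t + 1) => (a i.succ, F (a i.succ))) := by
    intro a ha heq
    let w : Fin (t + 1 + 1) → Letter Λ t := fun i => (a i, F (a i))
    have hgw : gen w ∉ Γ (fun i : Fin (t + 1) => (a i.castSucc, F (a i.castSucc))) := by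
      have h1 : gen w = pick (fun i : Fin (t + 1) => (a i.castSucc, F (a i.castSucc))) :=
        hF _ (fun i : Fin (t + 1) => a i.castSucc) (fun i => ha (Fin.castSucc_lt_last i))
      rw [h1]
      exact hpick _
    have hw : h w ∈ N (fun i : Fin (t + 1) => (a i.succ, F (a i.succ))) := ⟨w, rfl, rfl⟩
    rw [← heq] at hw
    refine hgw ⟨h w, hw, ?_⟩
    intro u hu huw
    by_contra hne
    have hadj : (tupleGraph (gen (Λ := Λ) (t := t))).Adj u w := ⟨hne, Or.inl hu⟩
    exact h.valid hadj huw
  obtain ⟨f, hf⟩ := shift_lemma (Λ := Λ) t (Set ℕ)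
    (fun b => N (fun i : Fin (t + 1) => (b i, F (b i)))) hpath
  exact hΛ f hf

theorem not_countable_coloring (t : ℕ) :
    IsEmpty ((tupleGraph (gen (Λ := Set (IterPow t (Set ℕ))) (t := t))).Coloring ℕ) := by
  obtain ⟨inst, hwf⟩ := exists_wellFoundedLT (α := Set (IterPow t (Set ℕ)))
  exact @not_countable_coloring_aux t _ inst hwf Function.cantor_injective

theorem chromaticCardinal_eq (t : ℕ) :
    chromaticCardinal (tupleGraph (gen (Λ := Set (IterPow t (Set ℕ))) (t := t))) =
      Cardinal.aleph 1 := by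
  apply le_antisymm
  · refine csInf_le' ⟨Om, mk_Om, ⟨SimpleGraph.Coloring.mk gen (fun {u w} h => h.1)⟩⟩
  · refine le_csInf ⟨Cardinal.aleph 1, Om, mk_Om,
      ⟨SimpleGraph.Coloring.mk gen (fun {u w} h => h.1)⟩⟩ ?_
    rintro κ ⟨C, hC, ⟨c⟩⟩
    by_contra hlt
    rw [not_le] at hlt
    have h1 : #C ≤ ℵ₀ := by
      rw [hC]
      rw [← Cardinal.succ_aleph0] at hlt
      exact Order.lt_succ_iff.mp hlt
    rw [Cardinal.mk_le_aleph0_iff] at h1
    obtain ⟨e, he⟩ := exists_injective_nat C
    exact (not_countable_coloring t).false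
      (SimpleGraph.Coloring.mk (fun u => e (c u)) (fun {u w} h heq => c.valid h (he heq)))

end Chromatic

/-! ## The main theorem -/

/-- Explicit form: for every `r ≥ 2` there is a graph of chromatic number `ℵ₁` with
`h_G(n) ≤ r n ^ (1 + 1 / r)` for all `n`. -/
theorem explicit (t : ℕ) : ∃ (V : Type) (G : SimpleGraph V),
    chromaticCardinal G = Cardinal.aleph 1 ∧
    ∀ n : ℕ, (hFun G n : ℝ) ≤ ((t : ℝ) + 2) * (n : ℝ) ^ (1 + 1 / ((t : ℝ) + 2)) := by
  refine ⟨_, tupleGraph (gen (Λ := Set (IterPow t (Set ℕ))) (t := t)), chromaticCardinal_eq t, ?_⟩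
  intro n
  set r : ℝ := (t : ℝ) + 2 with hr
  have hrpos : 0 < r := by positivity
  set M : ℕ := ⌊(n : ℝ) ^ (1 / r)⌋₊ with hM
  have hn0 : (0 : ℝ) ≤ n := Nat.cast_nonneg n
  have hMle : (M : ℝ) ≤ (n : ℝ) ^ (1 / r) := Nat.floor_le (by positivity)
  have hMlt : n < (M + 1) ^ (t + 1 + 1) := by
    have h1 : (n : ℝ) ^ (1 / r) < M + 1 := Nat.lt_floor_add_one _
    have h2 : ((n : ℝ) ^ (1 / r)) ^ r < ((M : ℝ) + 1) ^ r :=
      Real.rpow_lt_rpow (by positivity) h1 hrpos
    rw [← Real.rpow_mul hn0, one_div, inv_mul_cancel₀ hrpos.ne', Real.rpow_one] at h2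
    have h3 : ((M : ℝ) + 1) ^ r = ((M : ℝ) + 1) ^ (t + 1 + 1) := by
      rw [← Real.rpow_natCast]
      congr 1
      rw [hr]; push_cast; ring
    rw [h3] at h2
    exact_mod_cast h2
  have hh : hFun (tupleGraph (gen (Λ := Set (IterPow t (Set ℕ))) (t := t))) n ≤
      (t + 1 + 1) * n * M := by
    unfold hFun
    refine csSup_le' ?_
    rintro k ⟨S, hS, rfl⟩
    rw [← hS] at hMlt ⊢
    exact deficiency_tupleGraph _ S M hMlt
  calc (hFun _ n : ℝ) ≤ (((t + 1 + 1) * n * M : ℕ) : ℝ) := by exact_mod_cast hh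
    _ = r * n * M := by rw [hr]; push_cast; ring
    _ ≤ r * n * (n : ℝ) ^ (1 / r) := by gcongr
    _ = r * (n : ℝ) ^ (1 + 1 / r) := by
        rw [Real.rpow_add' hn0 (by positivity), Real.rpow_one]
        ring

/-- **Erdős's question, answered in the affirmative.** For every `ε > 0` there is a graph `G` with
`χ(G) = ℵ₁` and `h_G(n) ≪ n ^ (1 + ε)`. -/
theorem result : ∀ ε : ℝ, 0 < ε → ∃ (V : Type) (G : SimpleGraph V),
    chromaticCardinal G = Cardinal.aleph 1 ∧
    ∃ C : ℝ, 0 < C ∧ ∀ᶠ n : ℕ in atTop, (hFun G n : ℝ) ≤ C * (n : ℝ) ^ (1 + ε) := by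
  intro ε hε
  obtain ⟨t, ht⟩ := exists_nat_gt (1 / ε)
  obtain ⟨V, G, hχ, hG⟩ := explicit t
  refine ⟨V, G, hχ, (t : ℝ) + 2, by positivity, ?_⟩
  filter_upwards [eventually_ge_atTop 1] with n hn
  refine (hG n).trans ?_
  have hn1 : (1 : ℝ) ≤ n := by exact_mod_cast hn
  have ht2 : 1 / ((t : ℝ) + 2) ≤ ε := by
    have h1 : 1 / ε < (t : ℝ) + 2 := by linarith
    have h2 : 0 < (t : ℝ) + 2 := by positivity
    rw [div_le_iff₀ h2]
    rw [div_lt_iff₀ hε] at h1
    linarith
  gcongr

end Pool.Agent.Results.MP_5b422c_co.SlowBipartite
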